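import Pool.Agent.Helper1_PRS.Stmts

/-!
# Squad PRS, module CLY: the vector fields of the `y`-line keep the order at all nodes
-/

set_option autoImplicit false

noncomputable section

namespace Pool.Agent.PRS.H63

open MvPolynomial

variable {N : ℕ}

/-- the derivation with given values on the generators -/
def th (g0 g1 : Fin 3 → S N) (h : Par N → S N) : Derivation ℚ (S N) (S N) :=
  mkDerivation ℚ (Sum.elim (fun q => (![g0, g1] q.1) q.2) h)

theorem th_j0 (g0 g1 : Fin 3 → S N) (h : Par N → S N) (l : Fin 3) :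
    th g0 g1 h (jv N 0 l) = g0 l := by
  simp [th, jv, mkDerivation_X]

theorem th_j1 (g0 g1 : Fin 3 → S N) (h : Par N → S N) (l : Fin 3) :
    th g0 g1 h (jv N 1 l) = g1 l := by
  simp [th, jv, mkDerivation_X]

theorem th_pa (g0 g1 : Fin 3 → S N) (h : Par N → S N) (c : Fin 2) (i : Fin N) :
    th g0 g1 h (pa c i) = h (c, i) := by
  simp [th, pa, mkDerivation_X]

theorem node_par (i j : Fin N) (q : Par N) : node i j (X (Sum.inr q)) = X (Sum.inr q) := by
  simp [node, nodeFun, aeval_X]

theorem node_00 (i j : Fin N) : node i j (jv N 0 0) = pa 0 i + jv N 0 0 := by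
  simp [node, nodeFun, jv, aeval_X]

theorem node_01 (i j : Fin N) : node i j (jv N 0 1) = jv N 0 1 := by
  simp [node, nodeFun, jv, aeval_X]

theorem node_02 (i j : Fin N) : node i j (jv N 0 2) = jv N 0 2 := by
  simp [node, nodeFun, jv, aeval_X]

theorem node_10 (i j : Fin N) : node i j (jv N 1 0) = pa 1 j + jv N 0 0 * jv N 1 0 := by
  simp [node, nodeFun, jv, aeval_X]

theorem node_11 (i j : Fin N) :
    node i j (jv N 1 1) = jv N 0 1 * jv N 1 0 + jv N 0 0 * jv N 1 1 := by
  simp [node, nodeFun, jv, aeval_X]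

theorem node_12 (i j : Fin N) :
    node i j (jv N 1 2) =
      jv N 0 2 * jv N 1 0 + 2 * (jv N 0 1 * jv N 1 1) + jv N 0 0 * jv N 1 2 := by
  simp [node, nodeFun, jv, aeval_X]

/-- the criterion -/
theorem core (hC : ClaStmt) (i j : Fin N) (δ : Derivation ℚ (S N) (S N)) (g0 g1 : Fin 3 → S N)
    (h : Par N → S N)
    (h00 : node i j (δ (jv N 0 0)) = h (0, i) + g0 0)
    (h01 : node i j (δ (jv N 0 1)) = g0 1)
    (h02 : node i j (δ (jv N 0 2)) = g0 2)
    (h10 : node i j (δ (jv N 1 0)) = h (1, j) + (jv N 0 0 * g1 0 + jv N 1 0 * g0 0))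
    (h11 : node i j (δ (jv N 1 1)) =
      (jv N 0 1 * g1 0 + jv N 1 0 * g0 1) + (jv N 0 0 * g1 1 + jv N 1 1 * g0 0))
    (h12 : node i j (δ (jv N 1 2)) =
      (jv N 0 2 * g1 0 + jv N 1 0 * g0 2) + 2 * (jv N 0 1 * g1 1 + jv N 1 1 * g0 1) +
        (jv N 0 0 * g1 2 + jv N 1 2 * g0 0))
    (hp : ∀ q : Par N, node i j (δ (X (Sum.inr q))) = h q) (hu : jv N 0 0 ∣ g0 0)
    (ν : ℕ) (P : S N) (hP : jv N 0 0 ^ ν ∣ node i j P) : jv N 0 0 ^ ν ∣ node i j (δ P) := by
  have h2 : th g0 g1 h (2 : S N) = 0 := by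
    have := (th g0 g1 h).map_natCast 2
    exact_mod_cast this
  have hv : ∀ v, node i j (δ (X v)) = th g0 g1 h (node i j (X v)) := by
    rintro (⟨c, l⟩ | q)
    · fin_cases c <;> fin_cases l
      · change node i j (δ (jv N 0 0)) = th g0 g1 h (node i j (jv N 0 0))
        rw [h00, node_00, map_add, th_pa, th_j0]
      · change node i j (δ (jv N 0 1)) = th g0 g1 h (node i j (jv N 0 1))
        rw [h01, node_01, th_j0]
      · change node i j (δ (jv N 0 2)) = th g0 g1 h (node i j (jv N 0 2))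
        rw [h02, node_02, th_j0]
      · change node i j (δ (jv N 1 0)) = th g0 g1 h (node i j (jv N 1 0))
        rw [h10, node_10, map_add, Derivation.leibniz, th_pa, th_j0, th_j1]
        simp only [smul_eq_mul]
      · change node i j (δ (jv N 1 1)) = th g0 g1 h (node i j (jv N 1 1))
        rw [h11, node_11, map_add, Derivation.leibniz, Derivation.leibniz]
        simp only [smul_eq_mul, th_j0, th_j1]
      · change node i j (δ (jv N 1 2)) = th g0 g1 h (node i j (jv N 1 2))
        rw [h12, node_12, map_add, map_add, Derivation.leibniz, Derivation.leibniz,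
          Derivation.leibniz, Derivation.leibniz, h2]
        simp only [smul_eq_mul, th_j0, th_j1, mul_zero, add_zero]
    · rw [hp, node_par]
      obtain ⟨c, i'⟩ := q
      exact (th_pa g0 g1 h c i').symm
  exact (hC N i j δ (th g0 g1 h) hv).2 (by rw [th_j0]; exact hu) ν P hP

theorem A_j (c : Fin 2) (i' : Fin N) (c' : Fin 2) (l : Fin 3) : A c i' (jv N c' l) = 0 := by
  simp [A, jv, mkDerivation_X]

theorem A_p (c : Fin 2) (i' : Fin N) (q : Par N) :
    A c i' (X (Sum.inr q)) = if q = (c, i') then (jv N c 0 - pa c i') ^ 3 else 0 := by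
  simp [A, mkDerivation_X]

theorem cly (hC : ClaStmt) : ClyStmt := by
  intro N ν i j P hP
  refine ⟨fun i' => ?_, ?_, ?_, ?_⟩
  · by_cases hij : i' = j
    · subst hij
      refine core hC i i' (A 1 i') 0
        ![-(jv N 0 0 ^ 2 * jv N 1 0 ^ 3), jv N 0 0 * jv N 0 1 * jv N 1 0 ^ 3,
          jv N 0 0 * jv N 0 2 * jv N 1 0 ^ 3 - 2 * jv N 0 1 ^ 2 * jv N 1 0 ^ 3]
        (fun q => if q = (1, i') then jv N 0 0 ^ 3 * jv N 1 0 ^ 3 else 0)
        ?_ ?_ ?_ ?_ ?_ ?_ ?_ ?_ ν P hP
      · simp [A_j]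
      · simp [A_j]
      · simp [A_j]
      · rw [A_j, map_zero]
        simp only [if_true, Pi.zero_apply, Matrix.cons_val_zero]
        ring
      · rw [A_j, map_zero]
        simp only [Pi.zero_apply, Matrix.cons_val_zero, Matrix.cons_val_one]
        ring
      · rw [A_j, map_zero]
        simp only [Pi.zero_apply, Matrix.cons_val_zero, Matrix.cons_val_one, Matrix.cons_val]
        ring
      · intro q
        rw [A_p]
        split_ifs with hq
        · rw [map_pow, map_sub, node_10]
          have : node i i' (pa 1 i') = pa 1 i' := node_par i i' (1, i')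
          rw [this]
          ring
        · simp
      · simp
    · refine core hC i j (A 1 i') 0 0
        (fun q => if q = (1, i') then (pa 1 j + jv N 0 0 * jv N 1 0 - pa 1 i') ^ 3 else 0)
        ?_ ?_ ?_ ?_ ?_ ?_ ?_ ?_ ν P hP
      · simp [A_j]
      · simp [A_j]
      · simp [A_j]
      · have : ¬ (((1 : Fin 2), j) = (1, i')) := fun h => hij (Prod.ext_iff.1 h).2.symm
        simp [A_j, this]
      · simp [A_j]
      · simp [A_j]
      · intro q
        rw [A_p]
        split_ifs with hq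
        · rw [map_pow, map_sub, node_10]
          have : node i j (pa 1 i') = pa 1 i' := node_par i j (1, i')
          rw [this]
        · simp
      · simp
  · refine core hC i j (T0 N 1) 0 0 (fun q => if q.1 = 1 then 1 else 0)
      ?_ ?_ ?_ ?_ ?_ ?_ ?_ ?_ ν P hP
    · simp [T0, jv, mkDerivation_X]
    · simp [T0, jv, mkDerivation_X]
    · simp [T0, jv, mkDerivation_X]
    · simp [T0, jv, mkDerivation_X]
    · simp [T0, jv, mkDerivation_X]
    · simp [T0, jv, mkDerivation_X]
    · rintro ⟨c, i'⟩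
      simp only [T0, mkDerivation_X, Sum.elim_inr]
      split_ifs <;> simp
    · simp
  · refine core hC i j (T1 N 1) 0 ![jv N 1 0, jv N 1 1, jv N 1 2]
      (fun q => if q.1 = 1 then pa q.1 q.2 else 0)
      ?_ ?_ ?_ ?_ ?_ ?_ ?_ ?_ ν P hP
    · simp [T1, jv, mkDerivation_X]
    · simp [T1, jv, mkDerivation_X]
    · simp [T1, jv, mkDerivation_X]
    · have : T1 N 1 (jv N 1 0) = jv N 1 0 := by simp [T1, jv, mkDerivation_X]
      rw [this, node_10]
      simp
    · have : T1 N 1 (jv N 1 1) = jv N 1 1 := by simp [T1, jv, mkDerivation_X]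
      rw [this, node_11]
      simp
    · have : T1 N 1 (jv N 1 2) = jv N 1 2 := by simp [T1, jv, mkDerivation_X]
      rw [this, node_12]
      simp
    · rintro ⟨c, i'⟩
      simp only [T1, mkDerivation_X, Sum.elim_inr]
      split_ifs
      · exact node_par i j (c, i')
      · simp
    · simp
  · refine core hC i j (T2 N 1) 0
      ![2 * pa 1 j * jv N 1 0 + jv N 0 0 * jv N 1 0 ^ 2,
        2 * pa 1 j * jv N 1 1 + jv N 0 1 * jv N 1 0 ^ 2 + 2 * jv N 0 0 * jv N 1 0 * jv N 1 1,
        2 * pa 1 j * jv N 1 2 + jv N 0 2 * jv N 1 0 ^ 2 + 4 * jv N 0 1 * jv N 1 0 * jv N 1 1 +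
          2 * jv N 0 0 * jv N 1 1 ^ 2 + 2 * jv N 0 0 * jv N 1 0 * jv N 1 2]
      (fun q => if q.1 = 1 then pa q.1 q.2 ^ 2 else 0)
      ?_ ?_ ?_ ?_ ?_ ?_ ?_ ?_ ν P hP
    · simp [T2, jv, mkDerivation_X]
    · simp [T2, jv, mkDerivation_X]
    · simp [T2, jv, mkDerivation_X]
    · have : T2 N 1 (jv N 1 0) = jv N 1 0 ^ 2 := by simp [T2, jv, mkDerivation_X]
      rw [this, map_pow, node_10]
      simp only [if_true, Pi.zero_apply, Matrix.cons_val_zero]
      ring
    · have : T2 N 1 (jv N 1 1) = 2 * (jv N 1 0 * jv N 1 1) := by simp [T2, jv, mkDerivation_X]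
      rw [this, map_mul, map_mul, map_ofNat, node_10, node_11]
      simp only [Pi.zero_apply, Matrix.cons_val_zero, Matrix.cons_val_one]
      ring
    · have : T2 N 1 (jv N 1 2) = 2 * jv N 1 1 ^ 2 + 2 * (jv N 1 0 * jv N 1 2) := by
        simp [T2, jv, mkDerivation_X]
      rw [this, map_add, map_mul, map_mul, map_mul, map_pow, map_ofNat, node_10, node_11, node_12]
      simp only [Pi.zero_apply, Matrix.cons_val_zero, Matrix.cons_val_one, Matrix.cons_val]
      ring
    · rintro ⟨c, i'⟩
      simp only [T2, mkDerivation_X, Sum.elim_inr]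
      split_ifs
      · rw [map_pow]
        have : node i j (pa c i') = pa c i' := node_par i j (c, i')
        rw [this]
      · simp
    · simp

end Pool.Agent.PRS.H63
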